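import Pool.Agent.Helper88.AD.Stmts

/-!
# Enumeration of a finite set of pairs in two lexicographic orders
-/

set_option autoImplicit false

namespace Pool.Agent.Helper90.AD

open Pool.Agent.Helper88.AD

theorem enum {α : Type} [LinearOrder α] (k : ℕ × ℕ ≃ α) (F : Finset (ℕ × ℕ)) {d : ℕ}
    (hd : F.card = d) :
    ∃ z : Fin d → ℕ × ℕ, StrictMono (fun i => k (z i)) ∧ Set.range z = ↑F := by
  have hc : (F.map k.toEmbedding).card = d := by rw [Finset.card_map, hd]
  refine ⟨fun i => k.symm ((F.map k.toEmbedding).orderEmbOfFin hc i), ?_, ?_⟩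
  · intro i j hij
    simpa using hij
  · ext q
    have h := Finset.range_orderEmbOfFin (F.map k.toEmbedding) hc
    constructor
    · rintro ⟨i, rfl⟩
      have h1 := Finset.orderEmbOfFin_mem (F.map k.toEmbedding) hc i
      rw [Finset.mem_map] at h1
      obtain ⟨p, hp, hp'⟩ := h1
      have h2 : k.symm ((F.map k.toEmbedding).orderEmbOfFin hc i) = p := by
        rw [← hp']
        simp
      simp only [h2]
      exact hp
    · intro hq
      have h1 : k q ∈ Set.range ((F.map k.toEmbedding).orderEmbOfFin hc) := by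
        rw [h]
        simpa using hq
      obtain ⟨i, hi⟩ := h1
      exact ⟨i, by simp only [hi]; simp⟩

/-- First key: `a` increasing, then `b` decreasing. -/
def key1 : ℕ × ℕ ≃ ℕ ×ₗ ℕᵒᵈ := (Equiv.prodCongr (Equiv.refl ℕ) OrderDual.toDual).trans toLex

/-- Second key: `b` decreasing, then `a` increasing. -/
def key2 : ℕ × ℕ ≃ ℕᵒᵈ ×ₗ ℕ :=
  ((Equiv.prodComm ℕ ℕ).trans (Equiv.prodCongr OrderDual.toDual (Equiv.refl ℕ))).trans toLex

theorem key1_lt (p q : ℕ × ℕ) (h : key1 p < key1 q) :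
    p.1 < q.1 ∨ (p.1 = q.1 ∧ q.2 < p.2) := by
  have h' : toLex ((p.1, OrderDual.toDual p.2) : ℕ × ℕᵒᵈ)
      < toLex ((q.1, OrderDual.toDual q.2) : ℕ × ℕᵒᵈ) := h
  rw [Prod.Lex.toLex_lt_toLex] at h'
  rcases h' with h' | ⟨h1, h2⟩
  · exact Or.inl h'
  · exact Or.inr ⟨h1, OrderDual.toDual_lt_toDual.1 h2⟩

theorem key2_lt (p q : ℕ × ℕ) (h : key2 p < key2 q) :
    q.2 < p.2 ∨ (p.2 = q.2 ∧ p.1 < q.1) := by
  have h' : toLex ((OrderDual.toDual p.2, p.1) : ℕᵒᵈ × ℕ)
      < toLex ((OrderDual.toDual q.2, q.1) : ℕᵒᵈ × ℕ) := h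
  rw [Prod.Lex.toLex_lt_toLex] at h'
  rcases h' with h' | ⟨h1, h2⟩
  · exact Or.inl (OrderDual.toDual_lt_toDual.1 h')
  · exact Or.inr ⟨OrderDual.toDual_inj.1 h1, h2⟩

theorem stmtEnum : StmtEnum := by
  intro s d F hd hF hb
  obtain ⟨z, hz, hzr⟩ := enum key1 F hd
  obtain ⟨z', hz', hzr'⟩ := enum key2 F hd
  have iz : Function.Injective z := fun i j h => hz.injective (by simp only [h])
  have iz' : Function.Injective z' := fun i j h => hz'.injective (by simp only [h])
  have hr : Set.range z' = Set.range z := by rw [hzr, hzr']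
  let σ : Equiv.Perm (Fin d) :=
    (Equiv.ofInjective z' iz').trans ((Equiv.setCongr hr).trans (Equiv.ofInjective z iz).symm)
  have hσ : ∀ k, z (σ k) = z' k := by
    intro k
    have h1 : Equiv.ofInjective z iz (σ k) = Equiv.setCongr hr (Equiv.ofInjective z' iz' k) := by
      simp [σ]
    exact congrArg Subtype.val h1
  have hm : ∀ x, z x ∈ F := by
    intro x
    have : z x ∈ Set.range z := ⟨x, rfl⟩
    rw [hzr] at this
    exact this
  refine ⟨z, σ, ⟨fun x => (hF _ (hm x)).1, fun x => (hF _ (hm x)).2, ?_, ?_, ?_⟩, ?_⟩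
  · intro a ha
    have h1 : (a, a + 1) ∈ (↑F : Set (ℕ × ℕ)) := hb a ha
    rw [← hzr] at h1
    exact h1
  · intro x y hxy
    exact key1_lt _ _ (hz hxy)
  · intro k l hkl
    rw [hσ, hσ]
    exact key2_lt _ _ (hz' hkl)
  · apply Finset.coe_injective
    rw [Finset.coe_image, Finset.coe_univ, Set.image_univ, hzr]

end Pool.Agent.Helper90.AD
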